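import Mathlib

/-!
Arc bijections of strong tournaments mapping 4-circuits into 4-circuits.
For every n at least 5 there are two strong tournaments on n vertices and an arc bijection
mapping 4-circuits into 4-circuits although the tournaments are neither isomorphic nor converse.
-/

namespace Pool.Agent.Results.MP_ebd9af_co.FourCircuits

/-- A tournament on the vertex type `V`: no loops, exactly one arc between any two distinct
vertices. -/
structure Tourn (V : Type) where
  /-- `arc u v` means that `uv` is an arc. -/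
  arc : V → V → Prop
  /-- there is no loop -/
  loopless : ∀ v, ¬ arc v v
  /-- exactly one of `uv`, `vu` is an arc -/
  total : ∀ u v, u ≠ v → (arc u v ↔ ¬ arc v u)

variable {V W : Type}

/-- The type of arcs of a tournament. -/
abbrev Arc (T : Tourn V) : Type := {p : V × V // T.arc p.1 p.2}

/-- A tournament is strong if any vertex can be reached from any other by a directed path. -/
def Strong (T : Tourn V) : Prop := ∀ u v, Relation.ReflTransGen T.arc u v

/-- The converse of a tournament. -/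
def converse (T : Tourn V) : Tourn V where
  arc := fun u v => T.arc v u
  loopless := T.loopless
  total := fun u v h => T.total v u h.symm

/-- Two tournaments are isomorphic if some bijection of the vertex sets preserves arcs. -/
def Isomorphic (S : Tourn V) (T : Tourn W) : Prop :=
  ∃ e : V ≃ W, ∀ u v, S.arc u v ↔ T.arc (e u) (e v)

/-- `C` is the set of arcs of a `k`-circuit of `T`: there are distinct vertices `c i`, indexed by
`ZMod k`, with all the arcs `c i → c (i + 1)`, and `C` is the set of these arcs. -/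
def IsCircuit (k : ℕ) (T : Tourn V) (C : Set (Arc T)) : Prop :=
  ∃ (c : ZMod k → V) (h : ∀ i, T.arc (c i) (c (i + 1))), Function.Injective c ∧
    C = Set.range (fun i => (⟨(c i, c (i + 1)), h i⟩ : Arc T))

/-- The bijection `φ` of the arcs maps `k`-circuits into `k`-circuits. -/
def MapsCircuits (k : ℕ) (S : Tourn V) (T : Tourn W) (φ : Arc S ≃ Arc T) : Prop :=
  ∀ C : Set (Arc S), IsCircuit k S C → IsCircuit k T (φ '' C)

/-- First tournament: `i → j` iff `j ≥ i + 2` or `i = j + 1`. -/
def tA (n : ℕ) : Tourn (Fin n) where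
  arc := fun i j => i.val + 2 ≤ j.val ∨ j.val + 1 = i.val
  loopless := by intro v; omega
  total := by
    intro u v h
    have h' : u.val ≠ v.val := fun e => h (Fin.ext e)
    omega

/-- Second tournament: the first one with the arc from the first to the last vertex reversed. -/
def tB (n : ℕ) : Tourn (Fin n) where
  arc := fun i j => ((i.val + 2 ≤ j.val ∨ j.val + 1 = i.val) ∧ ¬ (i.val = 0 ∧ j.val = n - 1) ∧
      ¬ (i.val = n - 1 ∧ j.val = 0)) ∨ (i.val = n - 1 ∧ j.val = 0 ∧ i.val ≠ j.val)
  loopless := by intro v; omega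
  total := by
    intro u v h
    have h' : u.val ≠ v.val := fun e => h (Fin.ext e)
    have := u.isLt
    have := v.isLt
    omega

lemma reach_down {n : ℕ} (R : Fin n → Fin n → Prop)
    (hR : ∀ i j : Fin n, j.val + 1 = i.val → R i j) :
    ∀ (d : ℕ) (i j : Fin n), j.val + d = i.val → Relation.ReflTransGen R i j := by
  intro d
  induction d with
  | zero =>
    intro i j h
    have : i = j := Fin.ext (by omega)
    subst this
    exact Relation.ReflTransGen.refl
  | succ d ih =>
    intro i j h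
    have hi := i.isLt
    have h1 := ih i ⟨j.val + 1, by omega⟩ (by simp; omega)
    exact h1.tail (hR _ _ rfl)

lemma strongA {n : ℕ} (hn : 5 ≤ n) : Strong (tA n) := by
  intro u v
  have hd := reach_down (tA n).arc (fun i j h => Or.inr h)
  have hu := u.isLt
  have hv := v.isLt
  have h1 := hd u.val u ⟨0, by omega⟩ (by simp)
  have h2 : (tA n).arc ⟨0, by omega⟩ ⟨n - 1, by omega⟩ := Or.inl (by simp; omega)
  have h3 := hd (n - 1 - v.val) ⟨n - 1, by omega⟩ v (by simp; omega)
  exact (h1.tail h2).trans h3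

lemma strongB {n : ℕ} (hn : 5 ≤ n) : Strong (tB n) := by
  intro u v
  have hd := reach_down (tB n).arc (fun i j h => Or.inl ⟨Or.inr h, by omega, by omega⟩)
  have hu := u.isLt
  have hv := v.isLt
  have h1 := hd u.val u ⟨0, by omega⟩ (by simp)
  have h2 : (tB n).arc ⟨0, by omega⟩ ⟨2, by omega⟩ := Or.inl (by simp; omega)
  have h2' : (tB n).arc ⟨2, by omega⟩ ⟨n - 1, by omega⟩ := Or.inl (by simp; omega)
  have h3 := hd (n - 1 - v.val) ⟨n - 1, by omega⟩ v (by simp; omega)
  exact ((h1.tail h2).tail h2').trans h3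

/-- no arc of a 4-circuit of the first tournament jumps by at least 4 -/
lemma no_long {n : ℕ} (c : ZMod 4 → Fin n) (h : ∀ i, (tA n).arc (c i) (c (i + 1))) (i : ZMod 4) :
    (c (i + 1)).val < (c i).val + 4 := by
  have h0 := h i
  have h1 := h (i + 1)
  have h2 := h (i + 1 + 1)
  have h3 := h (i + 1 + 1 + 1)
  have e : i + 1 + 1 + 1 + 1 = i := by
    have : (4 : ZMod 4) = 0 := by decide
    linear_combination this
  rw [e] at h3
  simp only [tA] at h0 h1 h2 h3
  omega

lemma arcB_of_arcA {n : ℕ} (hn : 5 ≤ n) (i j : Fin n) (h : (tA n).arc i j)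
    (h' : ¬ (i.val = 0 ∧ j.val = n - 1)) : (tB n).arc i j := by
  simp only [tA] at h
  refine Or.inl ⟨h, h', ?_⟩
  omega

lemma arcB_last {n : ℕ} (hn : 5 ≤ n) (i j : Fin n) (h' : i.val = 0 ∧ j.val = n - 1) :
    (tB n).arc j i := by
  refine Or.inr ⟨h'.2, h'.1, ?_⟩
  omega

lemma arcA_of_arcB {n : ℕ} (i j : Fin n) (h : (tB n).arc i j)
    (h' : ¬ (i.val = n - 1 ∧ j.val = 0)) : (tA n).arc i j := by
  simp only [tB] at h
  simp only [tA]
  omega

lemma arcA_last {n : ℕ} (hn : 5 ≤ n) (i j : Fin n) (h' : i.val = n - 1 ∧ j.val = 0) :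
    (tA n).arc j i := by
  refine Or.inl ?_
  omega

/-- The arc map: identity, except that the arc from first to last vertex is reversed. -/
def phiFun (n : ℕ) (hn : 5 ≤ n) (p : Arc (tA n)) : Arc (tB n) :=
  if h : p.1.1.val = 0 ∧ p.1.2.val = n - 1 then
    ⟨(p.1.2, p.1.1), arcB_last hn p.1.1 p.1.2 h⟩
  else ⟨p.1, arcB_of_arcA hn p.1.1 p.1.2 p.2 h⟩

/-- The inverse arc map. -/
def psiFun (n : ℕ) (hn : 5 ≤ n) (p : Arc (tB n)) : Arc (tA n) :=
  if h : p.1.1.val = n - 1 ∧ p.1.2.val = 0 then
    ⟨(p.1.2, p.1.1), arcA_last hn p.1.1 p.1.2 h⟩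
  else ⟨p.1, arcA_of_arcB p.1.1 p.1.2 p.2 h⟩

/-- The arc bijection. -/
def phi (n : ℕ) (hn : 5 ≤ n) : Arc (tA n) ≃ Arc (tB n) where
  toFun := phiFun n hn
  invFun := psiFun n hn
  left_inv := by
    rintro ⟨⟨a, b⟩, hab⟩
    unfold phiFun psiFun
    by_cases h : a.val = 0 ∧ b.val = n - 1
    · simp [h]
    · have h' : ¬ (a.val = n - 1 ∧ b.val = 0) := by
        simp only [tA] at hab
        omega
      simp [h, h']
  right_inv := by
    rintro ⟨⟨a, b⟩, hab⟩
    unfold phiFun psiFun
    by_cases h : a.val = n - 1 ∧ b.val = 0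
    · simp [h]
    · have h' : ¬ (a.val = 0 ∧ b.val = n - 1) := by
        simp only [tB] at hab
        omega
      simp [h, h']

lemma phi_maps {n : ℕ} (hn : 5 ≤ n) : MapsCircuits 4 (tA n) (tB n) (phi n hn) := by
  rintro C ⟨c, h, hinj, rfl⟩
  have key : ∀ i, ¬ ((c i).val = 0 ∧ (c (i + 1)).val = n - 1) := by
    intro i
    have := no_long c h i
    omega
  have key' : ∀ i, phi n hn ⟨(c i, c (i + 1)), h i⟩ =
      ⟨(c i, c (i + 1)), arcB_of_arcA hn _ _ (h i) (key i)⟩ := by
    intro i
    have hk := key i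
    simp [phi, phiFun, hk]
  refine ⟨c, fun i => arcB_of_arcA hn _ _ (h i) (key i), hinj, ?_⟩
  rw [← Set.range_comp]
  congr 1
  funext i
  exact key' i

/-- Two different vertices each having exactly one in-neighbour. -/
def TwoUnique (T : Tourn V) : Prop :=
  ∃ u v : V, u ≠ v ∧ (∃! w, T.arc w u) ∧ (∃! w, T.arc w v)

lemma twoUnique_of_iso {S : Tourn V} {T : Tourn W} (e : Isomorphic S T) (h : TwoUnique S) :
    TwoUnique T := by
  obtain ⟨e, he⟩ := e
  obtain ⟨u, v, huv, ⟨a, ha, ha'⟩, ⟨b, hb, hb'⟩⟩ := h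
  refine ⟨e u, e v, fun h => huv (e.injective h), ⟨e a, (he a u).1 ha, ?_⟩,
    ⟨e b, (he b v).1 hb, ?_⟩⟩
  · intro y hy
    have := ha' (e.symm y) (by show S.arc _ _; rw [he]; simpa using hy)
    rw [← this]; simp
  · intro y hy
    have := hb' (e.symm y) (by show S.arc _ _; rw [he]; simpa using hy)
    rw [← this]; simp

lemma twoUniqueA {n : ℕ} (hn : 5 ≤ n) : TwoUnique (tA n) := by
  refine ⟨⟨0, by omega⟩, ⟨1, by omega⟩, by simp, ⟨⟨1, by omega⟩, ?_, ?_⟩,
    ⟨⟨2, by omega⟩, ?_, ?_⟩⟩
  · simp [tA]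
  · intro y hy
    simp only [tA] at hy
    exact Fin.ext (by simp; omega)
  · simp [tA]
  · intro y hy
    simp only [tA] at hy
    exact Fin.ext (by simp; omega)

lemma twoUniqueAc {n : ℕ} (hn : 5 ≤ n) : TwoUnique (converse (tA n)) := by
  refine ⟨⟨n - 1, by omega⟩, ⟨n - 2, by omega⟩, by simp; omega, ⟨⟨n - 2, by omega⟩, ?_, ?_⟩,
    ⟨⟨n - 3, by omega⟩, ?_, ?_⟩⟩
  · simp only [tA, converse]
    omega
  · intro y hy
    have := y.isLt
    simp only [tA, converse] at hy
    exact Fin.ext (by simp; omega)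
  · simp only [tA, converse]
    omega
  · intro y hy
    have := y.isLt
    simp only [tA, converse] at hy
    exact Fin.ext (by simp; omega)

lemma uniqueB {n : ℕ} (hn : 5 ≤ n) (u : Fin n) (h : ∃! w, (tB n).arc w u) : u.val = 1 := by
  obtain ⟨w, hw, hw'⟩ := h
  have hu := u.isLt
  by_contra hne
  -- two different in-neighbours
  have two : ∀ a b : Fin n, a.val ≠ b.val → (tB n).arc a u → (tB n).arc b u → False := by
    intro a b hab ha hb
    apply hab
    rw [hw' a ha, hw' b hb]
  by_cases h0 : u.val = 0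
  · refine two ⟨1, by omega⟩ ⟨n - 1, by omega⟩ (by simp; omega) ?_ ?_
    · simp only [tB]; omega
    · exact Or.inr ⟨rfl, h0, by simp; omega⟩
  by_cases h1 : u.val = n - 1
  · refine two ⟨1, by omega⟩ ⟨2, by omega⟩ (by simp) ?_ ?_
    · simp only [tB]; omega
    · simp only [tB]; omega
  · refine two ⟨0, by omega⟩ ⟨u.val + 1, by omega⟩ (by simp) ?_ ?_
    · refine arcB_of_arcA hn _ _ (Or.inl ?_) ?_
      · show 0 + 2 ≤ u.val
        omega
      · rintro ⟨_, h⟩
        exact h1 h
    · refine arcB_of_arcA hn _ _ (Or.inr rfl) ?_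
      rintro ⟨h, _⟩
      simp at h

lemma not_twoUniqueB {n : ℕ} (hn : 5 ≤ n) : ¬ TwoUnique (tB n) := by
  rintro ⟨u, v, huv, hu, hv⟩
  exact huv (Fin.ext ((uniqueB hn u hu).trans (uniqueB hn v hv).symm))

lemma iso_symm {S : Tourn V} {T : Tourn W} (e : Isomorphic S T) : Isomorphic T S := by
  obtain ⟨e, he⟩ := e
  refine ⟨e.symm, fun u v => ?_⟩
  rw [he]; simp

/-- **Main result.** For every `n ≥ 5` there are strong tournaments `S`, `T` on `n` vertices and a
bijection `φ` between their arcs which maps 4-circuits into 4-circuits, such that `T` is isomorphic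
neither to `S` nor to the converse of `S`. -/
theorem result : ∀ n : ℕ, 5 ≤ n → ∃ S T : Tourn (Fin n), Strong S ∧ Strong T ∧
    (∃ φ : Arc S ≃ Arc T, MapsCircuits 4 S T φ) ∧
    ¬ Isomorphic T S ∧ ¬ Isomorphic T (converse S) := by
  intro n hn
  refine ⟨tA n, tB n, strongA hn, strongB hn, ⟨phi n hn, phi_maps hn⟩, ?_, ?_⟩
  · intro h
    exact not_twoUniqueB hn (twoUnique_of_iso (iso_symm h) (twoUniqueA hn))
  · intro h
    exact not_twoUniqueB hn (twoUnique_of_iso (iso_symm h) (twoUniqueAc hn))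

end Pool.Agent.Results.MP_ebd9af_co.FourCircuits
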